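import Pool.Agent.helper87.TR.Spec

/-!
# Row tr:PT: all data occur
-/

namespace Pool.Agent.helper87.TR

open Polynomial Finset Module FP97
open Pool.Agent.helper97.FP

theorem PT (hRP : RP_stmt) : PT_stmt := by
  classical
  intro r h n S e w hA
  obtain ⟨a, B, ha, hBc, hHS, hthird⟩ := hRP r h n S e w hA
  have hadm := hA.adm
  have hBn : (fun k => (B k).card) = n := funext hBc
  have hdeg : max (1 : ℂ[X]).natDegree (X ^ e : ℂ[X]).natDegree = e := by
    rw [natDegree_one, natDegree_X_pow, Nat.zero_max]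
  have href : 2 * max (1 : ℂ[X]).natDegree (X ^ e : ℂ[X]).natDegree + (Sing B).card ≤
      2 * (SH a B 1 (X ^ e)).card := by
    rw [hdeg, SH_eq, hHS]
    have h1 := hadm.le
    have e1 : Sing B = Finset.univ.filter fun k => n k = 1 := by
      ext k
      rw [mem_Sing, hBc]; simp
    have e2 : (S.filter fun k => (B k).card = 1) = S.filter fun k => n k = 1 := by
      refine Finset.filter_congr fun k _ => ?_
      rw [hBc]
    rw [e1, e2]
    exact h1
  let Z : Finset (ℂ × ℂ) := Finset.univ.biUnion fun k => (B k).image fun b => (a k, b)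
  have hZ : ∀ z, z ∈ Z ↔ ∃ k, z.1 = a k ∧ z.2 ∈ B k := by
    rintro ⟨x, y⟩
    simp only [Z, Finset.mem_biUnion, Finset.mem_univ, true_and, Finset.mem_image, Prod.mk.injEq]
    constructor
    · rintro ⟨k, b, hb, h1, h2⟩
      exact ⟨k, h1.symm, h2 ▸ hb⟩
    · rintro ⟨k, h1, h2⟩
      exact ⟨k, y, h2, h1.symm, rfl⟩
  have hZc : Z.card = r := by
    rw [← hadm.sum_eq]
    rw [Finset.card_biUnion]
    · refine Finset.sum_congr rfl fun k _ => ?_
      rw [Finset.card_image_of_injective, hBc]
      intro x y hxy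
      exact congrArg Prod.snd hxy
    · intro k _ k' _ hkk'
      rw [Function.onFun, Finset.disjoint_left]
      intro z hz hz'
      rw [Finset.mem_image] at hz hz'
      obtain ⟨b, _, rfl⟩ := hz
      obtain ⟨b', _, hb'⟩ := hz'
      exact hkk' (ha (congrArg Prod.fst hb')).symm
  have hinj : Function.Injective pt := by
    intro x y hxy
    rw [← (pt_good x).2, ← (pt_good y).2, hxy]
  refine ⟨Z.image pt, ?_, ?_⟩
  · rw [Finset.card_image_of_injective _ hinj, hZc]
  · intro i j hij
    have hgood : ∀ P ∈ Z.image pt, FP97.Good 0 0 P := by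
      intro P hP
      rw [Finset.mem_image] at hP
      obtain ⟨z, _, rfl⟩ := hP
      exact (pt_good z).1
    rw [hilbert_eq_DV hgood]
    have hset : ∀ z, z ∈ {z | ∃ P ∈ Z.image pt, aff 0 0 P = z} ↔ ∃ k, z.1 = a k ∧ z.2 ∈ B k := by
      intro z
      rw [← hZ]
      constructor
      · rintro ⟨P, hP, rfl⟩
        rw [Finset.mem_image] at hP
        obtain ⟨w, hw, rfl⟩ := hP
        rw [(pt_good w).2]; exact hw
      · intro hz
        exact ⟨pt z, Finset.mem_image_of_mem _ hz, (pt_good z).2⟩
    rw [DV_eq_WW hset]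
    unfold Psi
    by_cases hj : j = 2
    · subst hj
      rw [if_pos rfl, ← hthird i, mul_comm]
    · rw [if_neg hj]
      have hij' : j ≤ 1 ∨ ∑ k, min 2 (n k) ≤ i + 1 := by
        rcases hij with h1 | h1
        · exact Or.inl (by omega)
        · exact Or.inr h1
      have h1 := main_aff ha (fun k => by rw [hBc]; exact hadm.pos k) isCoprime_one_left href i j
        (by simpa only [hBc] using hij')
      rw [h1, hHS, hdeg, hBn]

end Pool.Agent.helper87.TR
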