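import Pool.Agent.helper87.TR.Spec

/-!
# Row tr:WV: from coefficients to polynomials
-/

namespace Pool.Agent.helper87.TR

open Polynomial Finset Module FP97
open Pool.Agent.helper97.FP

theorem WV_sum (i : ℕ) (v : Fin (i + 1) × Fin (2 + 1) → ℂ) (f g : ℕ → ℂ) :
    ∑ p, v p * (f (p.1 : ℕ) * g (p.2 : ℕ)) =
      g 0 * (∑ m : Fin (i + 1), v (m, 0) * f m) + g 1 * (∑ m : Fin (i + 1), v (m, 1) * f m) +
        g 2 * ∑ m : Fin (i + 1), v (m, 2) * f m := by
  rw [Fintype.sum_prod_type, Finset.mul_sum, Finset.mul_sum, Finset.mul_sum,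
    ← Finset.sum_add_distrib, ← Finset.sum_add_distrib]
  refine Finset.sum_congr rfl fun m _ => ?_
  rw [Fin.sum_univ_three]
  change v (m, 0) * (f m * g 0) + v (m, 1) * (f m * g 1) + v (m, 2) * (f m * g 2) = _
  ring

/-- coefficients to polynomials -/
noncomputable def WV_map (i : ℕ) : (Fin (i + 1) × Fin (2 + 1) → ℂ) →ₗ[ℂ] (Fin 3 → ℂ[X]) where
  toFun v q := toP (i + 1) fun m => v (m, q)
  map_add' v w := by
    funext q
    exact map_add (toP (i + 1)) (fun m => v (m, q)) (fun m => w (m, q))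
  map_smul' c v := by
    funext q
    exact map_smul (toP (i + 1)) c (fun m => v (m, q))

theorem WV_apply (i : ℕ) (v : Fin (i + 1) × Fin (2 + 1) → ℂ) (q : Fin 3) :
    WV_map i v q = toP (i + 1) fun m => v (m, q) := rfl

theorem WV_inj (i : ℕ) : Function.Injective (WV_map i) := by
  intro v w hvw
  funext p
  have h := toP_injective (i + 1) (congrFun hvw p.2)
  exact congrFun h p.1

theorem WV_iff (i : ℕ) (v : Fin (i + 1) × Fin (2 + 1) → ℂ) (x b : ℂ) :
    ((∑ p, v p * (x ^ (p.1 : ℕ) * b ^ (p.2 : ℕ)) = 0) ∧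
    (∑ p, v p * (((p.1 : ℕ) * x ^ ((p.1 : ℕ) - 1)) * b ^ (p.2 : ℕ)) = 0) ∧
    (∑ p, v p * (x ^ (p.1 : ℕ) * ((p.2 : ℕ) * b ^ ((p.2 : ℕ) - 1))) = 0)) ↔
      Db (WV_map i v) x b := by
  have h1 := WV_sum i v (fun m => x ^ m) (fun m => b ^ m)
  have h2 := WV_sum i v (fun m => (m : ℂ) * x ^ (m - 1)) (fun m => b ^ m)
  have h3 := WV_sum i v (fun m => x ^ m) (fun m => (m : ℂ) * b ^ (m - 1))
  rw [h1, h2, h3]
  unfold Db
  simp only [WV_apply, toP_eval, toP_derivative_eval]
  norm_num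

theorem WV : WV_stmt := by
  intro h a B i U hU
  have hmap : (WW a B i 2).map (WV_map i) = U := by
    ext F
    rw [hU, Submodule.mem_map]
    constructor
    · rintro ⟨v, hv, rfl⟩
      refine ⟨fun q => toP_mem _ _, fun k b hb => ?_⟩
      exact (WV_iff i v (a k) b).mp (hv k b hb)
    · rintro ⟨h1, h2⟩
      choose y hy using fun q => exists_toP (h1 q)
      have hF : WV_map i (fun p => y p.2 p.1) = F := by
        funext q
        rw [WV_apply]
        exact hy q
      refine ⟨fun p => y p.2 p.1, fun k b hb => ?_, hF⟩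
      rw [← hF] at h2
      exact (WV_iff i _ (a k) b).mpr (h2 k b hb)
  rw [← hmap]
  exact (Submodule.equivMapOfInjective _ (WV_inj i) (WW a B i 2)).finrank_eq

end Pool.Agent.helper87.TR
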